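import Pool.Agent.W2helper89.MC.Stm

/-!
# Piece CONE of project MC
-/

set_option autoImplicit false

namespace Pool.Agent.W2helper10.MC

open Pool.Agent.Helper743 Pool.Agent.H246 Pool.Agent.W2helper89.MC Q203.TD

open Classical in
/-- total extension of a functional which is recursive in its argument -/
noncomputable def TE (ev : List ℕ → ℕ → Option ℕ) (X : NN) : NN :=
  if h : ∀ m, ∃ v, Hal ev X m v then fun m => Classical.choose (h m) else X

lemma TE_pos {ev : List ℕ → ℕ → Option ℕ} {X : NN} (h : ∀ m, ∃ v, Hal ev X m v) (m : ℕ) :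
    Hal ev X m (TE ev X m) := by
  unfold TE
  rw [dif_pos h]
  exact Classical.choose_spec (h m)

lemma TE_neg {ev : List ℕ → ℕ → Option ℕ} {X : NN} (h : ¬ ∀ m, ∃ v, Hal ev X m v) :
    TE ev X = X := by
  unfold TE
  rw [dif_neg h]

lemma TE_tr {ev : List ℕ → ℕ → Option ℕ} (hev : IsFn ev) (X : NN) : TR (TE ev X) X := by
  by_cases h : ∀ m, ∃ v, Hal ev X m v
  · exact recT_of_hal hev (TE_pos h)
  · rw [TE_neg h]
    exact TR.refl X

lemma TE_eq {ev : List ℕ → ℕ → Option ℕ} (hev : IsFn ev) {X g : NN} (h : ∀ m, Hal ev X m (g m)) :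
    TE ev X = g := by
  funext m
  exact Hal.unique hev (TE_pos (fun m => ⟨_, h m⟩) m) (h m)

local instance instMeasListQ : MeasurableSpace (List ℕ) := ⊤

lemma measurable_pre (n : ℕ) : Measurable fun X : NN => pre X n := by
  induction n with
  | zero => exact measurable_const
  | succ n ih =>
    have h1 : Measurable fun x : List ℕ × NN => x.1 ++ [x.2 n] := by
      refine measurable_from_prod_countable_right fun l => ?_
      exact (measurable_from_top (f := fun a : ℕ => l ++ [a])).comp (measurable_pi_apply n)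
    have h2 := h1.comp (ih.prodMk measurable_id)
    refine Eq.mp ?_ h2
    congr 1
    funext X
    exact (pre_succ X n).symm

lemma measurable_hal (ev : List ℕ → ℕ → Option ℕ) (m v : ℕ) :
    MeasurableSet {X : NN | Hal ev X m v} := by
  have : {X : NN | Hal ev X m v} = ⋃ n, (fun X => pre X n) ⁻¹' {l | ev l m = some v} := by
    ext X
    simp [Hal]
  rw [this]
  exact MeasurableSet.iUnion fun n => measurable_pre n trivial

lemma measurable_TE {ev : List ℕ → ℕ → Option ℕ} (hev : IsFn ev) : Measurable (TE ev) := by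
  have ht : MeasurableSet {X : NN | ∀ m, ∃ v, Hal ev X m v} := by
    have : {X : NN | ∀ m, ∃ v, Hal ev X m v} = ⋂ m, ⋃ v, {X : NN | Hal ev X m v} := by
      ext X; simp
    rw [this]
    exact MeasurableSet.iInter fun m => MeasurableSet.iUnion fun v => measurable_hal ev m v
  refine measurable_pi_lambda _ fun m => measurable_to_countable' fun v => ?_
  have : (fun X => TE ev X m) ⁻¹' {v} =
      ({X : NN | ∀ m, ∃ v, Hal ev X m v} ∩ {X : NN | Hal ev X m v}) ∪
        ({X : NN | ∀ m, ∃ v, Hal ev X m v}ᶜ ∩ {X : NN | X m = v}) := by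
    ext X
    by_cases h : ∀ m, ∃ v, Hal ev X m v
    · have h1 := TE_pos h m
      simp only [Set.mem_preimage, Set.mem_singleton_iff, Set.mem_union, Set.mem_inter_iff,
        Set.mem_ofPred_eq, Set.mem_compl_iff, h, not_true_eq_false, false_and, or_false, true_and]
      constructor
      · intro h2
        rw [← h2]
        simpa using h1
      · intro h2
        exact Hal.unique hev h1 (by simpa using h2)
    · rw [Set.mem_preimage, TE_neg h]
      simp only [Set.mem_singleton_iff, Set.mem_union, Set.mem_inter_iff,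
        Set.mem_ofPred_eq, Set.mem_compl_iff, h, not_false_eq_true, false_and, false_or, true_and]
  rw [this]
  refine (ht.inter (measurable_hal ev m v)).union (ht.compl.inter ?_)
  exact (measurable_pi_apply (X := fun _ : ℕ => ℕ) m) (measurableSet_singleton v)

/-- the indices -/
abbrev II : Type := Fin 4 ⊕ {ev // IsFn ev}

/-- the basic functions -/
noncomputable def bb : II → NN → NN
  | Sum.inl 0 => lf
  | Sum.inl 1 => rt
  | Sum.inl 2 => pl true
  | Sum.inl 3 => pl false
  | Sum.inr f => TE f.1

instance : Countable II := by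
  haveI : Countable {ev // IsFn ev} := countable_fn.to_subtype
  show Countable (Fin 4 ⊕ {ev // IsFn ev})
  infer_instance

lemma measurable_bb (i : II) : Measurable (bb i) := by
  rcases i with i | f
  · fin_cases i
    · exact measurable_lf
    · exact measurable_rt
    · exact measurable_pl true
    · exact measurable_pl false
  · exact measurable_TE f.2

lemma lf_tr (z : NN) : TR (lf z) z := by
  have h1 : Computable fun n : ℕ => 2 * n :=
    (Primrec.nat_mul.comp (Primrec.const 2) Primrec.id).to_comp
  exact (TR.refl z).comp (Computable.recT h1)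

lemma rt_tr (z : NN) : TR (rt z) z := by
  have h1 : Computable fun n : ℕ => 2 * n + 1 :=
    (Primrec.succ.comp (Primrec.nat_mul.comp (Primrec.const 2) Primrec.id)).to_comp
  exact (TR.refl z).comp (Computable.recT h1)

lemma mod_comp : Computable fun n : ℕ => n % 2 :=
  (Primrec.nat_mod.comp Primrec.id (Primrec.const 2)).to_comp

lemma jn_tr {z w v : NN} (h1 : TR z v) (h2 : TR w v) : TR (jn z w) v := by
  have hd : Computable fun n : ℕ => n / 2 :=
    (Primrec.nat_div.comp Primrec.id (Primrec.const 2)).to_comp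
  have h3 := RecT.ite_eq (Computable.recT mod_comp) (h1.comp (Computable.recT hd))
    (h2.comp (Computable.recT hd)) 0
  refine Nat.RecursiveIn.of_eq h3 ?_
  intro n
  beta_reduce
  unfold jn
  by_cases h : n % 2 = 0
  · rw [if_pos h, if_pos (Nat.even_iff.2 h)]
  · rw [if_neg h, if_neg (fun h' => h (Nat.even_iff.1 h'))]

/-- the code of the history -/
lemma enc_hs (p : Bool) (q : NN) (n : ℕ) : enc (hs p q (n + 1)) =
    Nat.succ (Nat.pair (if (Even n ↔ p = true) then q (2 * enc (hs p q n)) else
      q (2 * (n / 2) + 1)) (enc (hs p q n))) := rfl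

/-- the next move -/
def mv (p : Bool) (q : NN) (n s : ℕ) : ℕ :=
  if (Even n ↔ p = true) then q (2 * s) else q (2 * (n / 2) + 1)

lemma mv_tr (p : Bool) (q : NN) {O : Set (ℕ →. ℕ)} (hq : RecT O q) {a b : ℕ → ℕ}
    (ha : RecT O a) (hb : RecT O b) : RecT O (fun n => mv p q (a n) (b n)) := by
  have c1 : Computable fun n : ℕ => 2 * n :=
    (Primrec.nat_mul.comp (Primrec.const 2) Primrec.id).to_comp
  have c2 : Computable fun n : ℕ => 2 * (n / 2) + 1 :=
    (Primrec.succ.comp (Primrec.nat_mul.comp (Primrec.const 2)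
      (Primrec.nat_div.comp Primrec.id (Primrec.const 2)))).to_comp
  have h1 : RecT O fun n => q (2 * b n) := hq.comp ((Computable.recT c1).comp hb)
  have h2 : RecT O fun n => q (2 * (a n / 2) + 1) := hq.comp ((Computable.recT c2).comp ha)
  have h3 : RecT O fun n => a n % 2 := (Computable.recT mod_comp).comp ha
  cases p with
  | true =>
    refine Nat.RecursiveIn.of_eq (RecT.ite_eq h3 h1 h2 0) ?_
    intro n
    unfold mv
    beta_reduce
    by_cases h : a n % 2 = 0
    · rw [if_pos h, if_pos (by simpa using Nat.even_iff.2 h)]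
    · rw [if_neg h, if_neg (by simpa using Nat.odd_iff.2 (by omega))]
  | false =>
    refine Nat.RecursiveIn.of_eq (RecT.ite_eq h3 h2 h1 0) ?_
    intro n
    unfold mv
    beta_reduce
    by_cases h : a n % 2 = 0
    · rw [if_pos h, if_neg (by simpa using Nat.even_iff.2 h)]
    · rw [if_neg h, if_pos (by simpa using Nat.odd_iff.2 (by omega))]

lemma pl_tr (p : Bool) (q : NN) : TR (pl p q) q := by
  have u1 : Computable fun n : ℕ => n.unpair.1 := Computable.fst.comp Computable.unpair
  have u2 : Computable fun n : ℕ => n.unpair.2 := Computable.snd.comp Computable.unpair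
  have cs : Computable fun n : ℕ => n.succ := Computable.succ
  have hE : TR (fun n => enc (hs p q n)) q := by
    have hy : TR (fun z : ℕ => z.unpair.2.unpair.1) q := Computable.recT (u1.comp u2)
    have hi : TR (fun z : ℕ => z.unpair.2.unpair.2) q := Computable.recT (u2.comp u2)
    have hh : TR (fun z : ℕ => Nat.succ (Nat.pair (mv p q z.unpair.2.unpair.1 z.unpair.2.unpair.2)
        z.unpair.2.unpair.2)) q :=
      (Computable.recT cs).comp (RecT.pair (mv_tr p q (TR.refl q) hy hi) hi)
    have h1 := RecT.prec (Computable.recT (O := {(q : ℕ →. ℕ)}) (Computable.const (enc []))) hh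
    have c0 : Computable fun n : ℕ => Nat.pair 0 n :=
      (Primrec₂.natPair.comp (Primrec.const 0) Primrec.id).to_comp
    have h2 := RecT.comp h1 (Computable.recT c0)
    refine Nat.RecursiveIn.of_eq h2 ?_
    intro n
    congr 1
    simp only [Nat.unpair_pair]
    induction n with
    | zero => rfl
    | succ n ih =>
      simp only at ih ⊢
      rw [ih, enc_hs]
      rfl
  have h3 := mv_tr p q (TR.refl q) (Computable.recT Computable.id) hE
  exact h3

lemma bb_tr (i : II) (z : NN) : TR (bb i z) z := by
  rcases i with i | f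
  · fin_cases i
    · exact lf_tr z
    · exact rt_tr z
    · exact pl_tr true z
    · exact pl_tr false z
  · exact TE_tr f.2 z

lemma le_iff (z w : NN) : le bb z w ↔ TR z w := by
  constructor
  · rintro ⟨t, rfl⟩
    induction t with
    | var => exact TR.refl _
    | bas i t ih => exact TR.trans (bb_tr i _) ih
    | pair s t ih ih' => exact jn_tr ih ih'
  · intro h
    obtain ⟨ev, h2, h3, h4⟩ := use_principle _ _ h
    have hev : IsFn ev := ⟨h2, h3⟩
    refine ⟨Tm.bas (Sum.inr ⟨ev, hev⟩) Tm.var, ?_⟩
    exact TE_eq hev fun m => (h4 m (z m)).1 (Part.mem_some _)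

lemma meas_eq (f g : NN → NN) (hf : Measurable f) (hg : Measurable g) :
    MeasurableSet {z | f z = g z} := measurableSet_eq_fun hf hg

lemma meas_tr (f g : NN → NN) (hf : Measurable f) (hg : Measurable g) :
    MeasurableSet {z | TR (f z) (g z)} := by
  have : {z | TR (f z) (g z)} = ⋃ s : Tm II, {z | ev bb s (g z) = f z} := by
    ext z
    rw [Set.mem_iUnion]
    exact (le_iff (f z) (g z)).symm
  rw [this]
  exact MeasurableSet.iUnion fun s => meas_eq _ _ ((measurable_ev measurable_bb s).comp hg) hf

lemma minCov_congr {a z w : NN} (h1 : TR z w) (h2 : TR w z) (h : MinCov a z) : MinCov a w := by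
  obtain ⟨k1, k2, k3⟩ := h
  refine ⟨TR.trans k1 h1, fun h' => k2 (TR.trans h1 h'), fun d hd hd' => ?_⟩
  rcases k3 d hd (TR.trans hd' h2) with h | h
  · exact Or.inl h
  · exact Or.inr (TR.trans h2 h)

theorem p_cone : P_CONE := by
  intro hS e
  set T : Set NN := {b | ∃ a, TR e a ∧ MinCov a b} with hTdef
  have hT : MeasurableSet T := by
    have : T = ⋃ t : Tm II, ({b | TR e (ev bb t b)} ∩ ({b | TR b (ev bb t b)}ᶜ ∩
        ⋂ r : Tm II, ({b | TR (ev bb t b) (ev bb r b)}ᶜ ∪
          ({b | TR (ev bb r b) (ev bb t b)} ∪ {b | TR b (ev bb r b)})))) := by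
      ext b
      simp only [hTdef, Set.mem_ofPred_eq, Set.mem_iUnion, Set.mem_inter_iff, Set.mem_compl_iff,
        Set.mem_iInter, Set.mem_union]
      constructor
      · rintro ⟨a, ha, h1, h2, h3⟩
        obtain ⟨t, ht⟩ := (le_iff a b).2 h1
        refine ⟨t, by rw [ht]; exact ha, by rw [ht]; exact h2, fun r => ?_⟩
        rw [ht]
        by_cases h4 : TR a (ev bb r b)
        · exact Or.inr (h3 _ h4 ((le_iff _ _).1 ⟨r, rfl⟩))
        · exact Or.inl h4
      · rintro ⟨t, h1, h2, h3⟩
        refine ⟨ev bb t b, h1, (le_iff _ _).1 ⟨t, rfl⟩, h2, fun d hd hd' => ?_⟩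
        obtain ⟨r, rfl⟩ := (le_iff d b).2 hd'
        rcases h3 r with h | h
        · exact absurd hd h
        · exact h
    rw [this]
    have mv := fun t : Tm II => measurable_ev measurable_bb t
    refine MeasurableSet.iUnion fun t => (meas_tr _ _ measurable_const (mv t)).inter
      ((meas_tr _ _ measurable_id (mv t)).compl.inter (MeasurableSet.iInter fun r => ?_))
    exact (meas_tr _ _ (mv t) (mv r)).compl.union
      ((meas_tr _ _ (mv r) (mv t)).union (meas_tr _ _ measurable_id (mv r)))
  obtain ⟨c, hc⟩ := cone (b := bb) (L := Sum.inl 0) (R := Sum.inl 1) (P := Sum.inl 2)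
    (Q := Sum.inl 3) rfl rfl rfl rfl hT
    (by
      rintro z w ⟨h1, h2⟩
      rw [le_iff] at h1 h2
      constructor
      · rintro ⟨a, ha, h⟩
        exact ⟨a, ha, minCov_congr h1 h2 h⟩
      · rintro ⟨a, ha, h⟩
        exact ⟨a, ha, minCov_congr h2 h1 h⟩)
    (by
      intro z
      obtain ⟨w, hw⟩ := hS (join e z)
      refine ⟨w, ⟨join e z, TR_join_left e z, hw⟩, ?_⟩
      rw [le_iff]
      exact TR.trans (TR_join_right e z) hw.1)
  refine ⟨join e c, TR_join_left e c, fun b hb => ?_⟩
  exact hc b ((le_iff _ _).2 (TR.trans (TR_join_right e c) hb))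

end Pool.Agent.W2helper10.MC
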